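import Pool.Agent.H34.RC.Df

/-!
# [H62 AU DF] THEOREM A with classes, uniformly in the intervals: definitions

`BoxU b P I`: boxes of intervals of length at least `b` below `P`.
`ThmU`: all constants are chosen before the intervals; the intervals have relative length at least `g`, the window has
length `H ≤ lam0 log x`, and `g H` is at least a constant and at least a constant times a power of `log H`.
-/

set_option autoImplicit false

namespace Pool.Agent.H62.AU

open Finset Filter Pool.Agent.H34.RC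

/-- boxes of intervals of length at least `b` below `P` -/
def BoxU {ι : Type} (b P : ℝ) (I : ι → Finset ℕ) : Prop :=
  ∀ j, ∃ t H : ℕ, I j = Icc t (t + H) ∧ b ≤ ((H + 1 : ℕ) : ℝ) ∧ ((t + H : ℕ) : ℝ) ≤ P

open Classical in
/-- THEOREM A with classes, uniformly: many good windows of every length `H ≤ lam0 * log x` for all intervals of relative
length at least `g` -/
def ThmU : Prop := ∀ m : ℕ, ∃ D : ℕ, ∀ w : Fin m → ℝ, (∀ d, 0 ≤ w d) → 100 ≤ ∑ d, w d →
  ∀ Q : ℕ, 0 < Q →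
  ∃ lam0 δ θ T H0 : ℝ, 0 < lam0 ∧ lam0 ≤ 1 ∧ 0 < δ ∧ 0 < θ ∧ 1 ≤ T ∧ 1 ≤ H0 ∧ ∀ᶠ x : ℝ in atTop,
    ∀ r : Fin m → ℕ, (∀ d, Nat.Coprime (r d) Q) →
    ∀ (al be : Fin m → ℝ) (g H : ℝ), 0 < g → (∀ d, 0 < al d ∧ al d + g ≤ be d ∧ be d < 1) →
    (∀ d d', d ≠ d' → be d < al d' ∨ be d' < al d) →
    H ≤ lam0 * Real.log x → H0 ≤ g * H → H0 * Real.log H ^ D ≤ g * H →
      δ * (g * H / Real.log x) ^ D * x ≤ (((range (⌊T * x⌋₊ + 1)).filter
        (fun N : ℕ => θ * x ≤ (N : ℝ) ∧ GoodC Q r al be w H N)).card : ℝ)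

end Pool.Agent.H62.AU
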