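import Pool.Agent.H62.AU.Df
import Pool.Agent.H62.AU.Tsc
import Pool.Agent.H62.AS.Full

/-!
# [H62 AU Core] Shapes at prescribed separated scales, uniformly

`coreU`: `T = 100 r (k + K - 1)`; for `e > 0` there are `C, d, B` such that for ALL scales `t 0 ≪ t 1 ≪ ... ≪ t (T - 1) ≪ 1`
(each `C` times the one before, no upper bound for the quotients), all words `W i` and all shapes `x i`: the shape `x i`
occurs, for some `i`, exactly at the scale `t i log p_n`, for at least `d τ ^ D M` of the `n < M`, `τ = min t i`.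
-/

set_option autoImplicit false

namespace Pool.Agent.H62.AU

open Filter Finset Pool.Agent.H82.LS Pool.Agent.H62.VK Pool.Agent.H34.RC Pool.Agent.H62.VW Pool.Agent.H19.AS
  Pool.Agent.H62.AS

/-- from windows to indices -/
def WinU : Prop := ∀ T : ℝ, 1 ≤ T → ∃ (d0 : ℝ) (xs : ℕ → ℝ), 0 < d0 ∧ Tendsto xs atTop atTop ∧
  ∀ᶠ M : ℕ in atTop, Real.log M ≤ Real.log (xs M) ∧ Real.log (xs M) ≤ 2 * Real.log M ∧
    ∀ (P : ℕ → Prop) (A : ℝ) (S : Finset ℕ), 0 ≤ A → A * xs M ≤ S.card →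
      (∀ N ∈ S, (N : ℝ) ≤ T * xs M ∧ ∃ n, P n ∧ N ≤ Nat.nth Nat.Prime n ∧
        (Nat.nth Nat.Prime n : ℝ) ≤ N + Real.log (xs M)) →
      d0 * A * M ≤ ({n : ℕ | n < M ∧ P n}.ncard : ℝ)

theorem coreU (hT : ThmU) (hWin : WinU) (k K r : ℕ) (hk : 1 ≤ k) (hK : 1 ≤ K) :
    ∃ D : ℕ, ∀ (L s : ℕ), 0 < L → Nat.Coprime s L → ∀ (χ : ℕ → Fin r)
      (Q : ℕ → ℕ), (∀ i, 0 < Q i) → (∀ i, Nat.Coprime (Q i) L) → (∀ i j, i ≠ j → Nat.Coprime (Q i) (Q j)) →
      ∀ e : ℝ, 0 < e → ∃ C d B : ℝ, 1 ≤ C ∧ 0 < d ∧ ∀ (M : ℕ) (τ : ℝ) (t : ℕ → ℝ), B ≤ τ * Real.log M →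
        (∀ i < 100 * r * (k + K - 1), τ ≤ t i ∧ C * t i ≤ 1 ∧
          B * Real.log (t i * Real.log M) ^ D ≤ τ * Real.log M) →
        (∀ i, i + 1 < 100 * r * (k + K - 1) → C * t i ≤ t (i + 1)) →
      ∀ W : ℕ → Fin (k + 1) → ℕ, (∀ i j, Nat.Coprime (W i j) (Q i)) →
      ∀ x : ℕ → Fin k → ℝ, (∀ i j, |x i j| ≤ 1) →
        d * τ ^ D * M ≤ (({n : ℕ | n < M ∧ ∃ i < 100 * r * (k + K - 1), ∃ q : Fin r,
          ShapeW K L s (Q i) (W i) χ q (x i) 1 (t i * Real.log (Nat.nth Nat.Prime n)) e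
            (Nat.nth Nat.Prime n)}).ncard : ℝ) := by
  classical
  obtain ⟨T, hTd⟩ : ∃ T : ℕ, T = 100 * r * (k + K - 1) := ⟨_, rfl⟩
  obtain ⟨m, f, -⟩ : ∃ (m : ℕ) (_ : Fin m ≃ Ndk k T), True := ⟨_, (Fintype.equivFin (Ndk k T)).symm, trivial⟩
  obtain ⟨D, hTS⟩ := hT m
  refine ⟨D, ?_⟩
  intro L s hL hs χ Q hQ hQL hQQ e0 he0
  rw [← hTd]
  have hr : 0 < r := (χ 0).pos
  have hr0 : (0 : ℝ) < r := by exact_mod_cast hr
  have hT0 : 0 < T := by
    rw [hTd]
    exact Nat.mul_pos (Nat.mul_pos (by norm_num) hr) (by omega)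
  obtain ⟨Dk, hDk⟩ : ∃ Dk : ℕ, Dk = k + K - 1 := ⟨_, rfl⟩
  have hD1 : 1 ≤ Dk := by omega
  have hD0 : (0 : ℝ) < Dk := by exact_mod_cast hD1
  have hDr : (k : ℝ) + K - 1 = Dk := by
    rw [hDk, Nat.cast_sub (by omega)]
    push_cast
    ring
  obtain ⟨w, hwd⟩ : ∃ w : ℝ, w = 1 / Dk := ⟨_, rfl⟩
  have hw0 : 0 ≤ w := by rw [hwd]; positivity
  have hw : w * (k + K - 1) = 1 := by
    rw [hDr, hwd]
    field_simp
  have hsum : 100 ≤ ∑ d, wtk k w T (f d) / r := by
    rw [← Finset.sum_div, Equiv.sum_comp f (wtk k w T), sum_wtk hk, le_div_iff₀ hr0, hwd, mul_one_div,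
      le_div_iff₀ hD0]
    have h1 : (100 * r * Dk : ℕ) ≤ T := by
      rw [hDk, hTd]
    exact_mod_cast h1
  obtain ⟨Q0, hQ0⟩ : ∃ Q0 : ℕ, Q0 = L * ∏ i ∈ range T, Q i := ⟨_, rfl⟩
  have hQ0pos : 0 < Q0 := by
    rw [hQ0]
    exact Nat.mul_pos hL (Finset.prod_pos fun i _ => hQ i)
  obtain ⟨lam, δ, θ, T', H0, hlam, hlam1, hδ, hθ, hT', hH0, hxx⟩ := hTS (fun d => wtk k w T (f d) / r)
    (fun d => div_nonneg (wtk_nonneg hw0 _ _) hr0.le) hsum Q0 hQ0pos
  -- the error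
  obtain ⟨e, hed⟩ : ∃ e, e = min e0 1 / 2 := ⟨_, rfl⟩
  have hmin : 0 < min e0 1 := lt_min he0 one_pos
  have he : 0 < e := by rw [hed]; positivity
  have he1 : e ≤ 1 := by
    rw [hed]
    have := min_le_right e0 1
    linarith
  have h2e : 2 * e ≤ e0 := by
    rw [hed]
    have := min_le_left e0 1
    linarith
  have hk1 : (0 : ℝ) < (k : ℝ) + 1 := by positivity
  obtain ⟨η, hηd⟩ : ∃ η, η = e / 4 := ⟨_, rfl⟩
  have hη : 0 < η := by rw [hηd]; positivity
  have hη1 : η ≤ 1 / 4 := by rw [hηd]; linarith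
  have hnear := log_near θ T' 1 η hθ hT' one_pos hη
  obtain ⟨d0, xs, hd0, hxs, hwin⟩ := hWin T' hT'
  have hev := (hxs.eventually hxx).and ((hxs.eventually hnear).and ((hxs.eventually_gt_atTop 1).and hwin))
  obtain ⟨M1, hM1⟩ := eventually_atTop.1 hev
  obtain ⟨c1, hc1d⟩ : ∃ c1 : ℝ, c1 = e / (6 * ((k : ℝ) + 1)) := ⟨_, rfl⟩
  have hc1 : 0 < c1 := by rw [hc1d]; positivity
  have hc11 : c1 ≤ 1 := by
    rw [hc1d, div_le_one (by positivity)]
    have : (0 : ℝ) ≤ k := Nat.cast_nonneg k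
    linarith
  obtain ⟨C, hCd⟩ : ∃ C : ℝ, C = max 1 (max (16 / lam) (96 * ((k : ℝ) + 1) / e)) := ⟨_, rfl⟩
  have hC1 : 1 ≤ C := hCd ▸ le_max_left _ _
  have hC2 : 16 / lam ≤ C := hCd ▸ (le_max_left _ _).trans (le_max_right _ _)
  have hC3 : 96 * ((k : ℝ) + 1) / e ≤ C := hCd ▸ (le_max_right _ _).trans (le_max_right _ _)
  obtain ⟨B, hBd⟩ : ∃ B : ℝ, B = max (max 32 (Real.log ((M1 : ℝ) + 1))) (H0 * 2 ^ D / c1) := ⟨_, rfl⟩
  have hB1 : 32 ≤ B := hBd ▸ (le_max_left _ _).trans (le_max_left _ _)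
  have hB2 : Real.log ((M1 : ℝ) + 1) ≤ B := hBd ▸ (le_max_right _ _).trans (le_max_left _ _)
  have hB3 : H0 * 2 ^ D ≤ B * c1 := by
    rw [← div_le_iff₀ hc1]
    exact hBd ▸ le_max_right _ _
  refine ⟨C, d0 * (δ * c1 ^ D), B, hC1, by positivity, fun M τ t hB ht hsepC W hW1 x hx => ?_⟩
  have hτ : 0 < τ := pos_of_scale one_pos ((by linarith : (1 : ℝ) ≤ B).trans hB)
  have htpos : ∀ i < T, 0 < t i := fun i hi => hτ.trans_le (ht i hi).1
  obtain ⟨tl, htl⟩ : ∃ tl, tl = t (T - 1) := ⟨_, rfl⟩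
  obtain ⟨htl1, htl2, htl3⟩ := ht (T - 1) (by omega)
  rw [← htl] at htl1 htl2 htl3
  have htl0 : 0 < tl := hτ.trans_le htl1
  have htle1 : tl ≤ 1 := by nlinarith
  have hlM : 0 ≤ Real.log (M : ℝ) := Real.log_natCast_nonneg M
  have hBM : B ≤ Real.log (M : ℝ) := by
    have h1 : τ * Real.log M ≤ 1 * Real.log M := mul_le_mul_of_nonneg_right (htl1.trans htle1) hlM
    linarith
  have hMM : M1 ≤ M := by
    have h1 : Real.log ((M1 : ℝ) + 1) ≤ Real.log M := hB2.trans hBM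
    have hM0 : (0 : ℝ) < M := by
      by_contra hcon
      have h2 : (M : ℝ) = 0 := le_antisymm (not_lt.1 hcon) (Nat.cast_nonneg M)
      rw [h2, Real.log_zero] at hBM
      linarith
    have h2 : (M1 : ℝ) + 1 ≤ M := (Real.log_le_log_iff (by positivity) hM0).1 h1
    have h3 : ((M1 + 1 : ℕ) : ℝ) ≤ M := by
      push_cast
      exact h2
    have h4 : M1 + 1 ≤ M := by exact_mod_cast h3
    omega
  obtain ⟨hxx, hnear, hxs1, hlx1, hlx2, hwin⟩ := hM1 M hMM
  generalize xs M = X at hxx hnear hxs1 hlx1 hlx2 hwin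
  obtain ⟨y, hyd⟩ : ∃ y, y = Real.log X := ⟨_, rfl⟩
  rw [← hyd] at hxx hnear hlx1 hlx2 hwin
  have hy : 0 < y := by linarith
  have hX0 : 0 < X := by linarith
  -- the classes of the cells
  have hlab : ∀ d : Fin m, ∀ i, Nat.Coprime (labk k W T (f d) i) (Q i) := fun d i =>
    labk_prop (G := fun i a => Nat.Coprime a (Q i)) (fun i => Nat.coprime_one_left _)
      (fun i j => hW1 i j) T (f d) i
  have hρ := fun d : Fin m => exists_rho L s hs Q hQL hQQ (labk k W T (f d)) (hlab d) T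
  choose ρ hρ1 hρ2 hρ3 using hρ
  -- the tree
  obtain ⟨H, hHd⟩ : ∃ H, H = 16 * tl * y := ⟨_, rfl⟩
  have hH : 0 < H := by rw [hHd]; positivity
  obtain ⟨u, hud⟩ : ∃ u : ℕ → ℝ, u = fun i => t i / (16 * tl) := ⟨_, rfl⟩
  have hlu : ∀ i, 16 * tl * u i = t i := fun i => by
    rw [hud]
    field_simp
  have huH : ∀ i, u i * H = t i * y := fun i => by
    rw [hHd, ← hlu i]
    ring
  have hu : ∀ i < T, 0 < u i := fun i hi => by
    rw [hud]
    exact div_pos (htpos i hi) (by positivity)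
  obtain ⟨g, hgd⟩ : ∃ g, g = c1 * τ / (16 * tl) := ⟨_, rfl⟩
  have hg0 : 0 < g := by rw [hgd]; positivity
  have hgH : g * H = c1 * τ * y := by
    rw [hgd, hHd]
    field_simp
  have hg1 : g ≤ 1 := by
    rw [hgd, div_le_one (by positivity)]
    nlinarith
  have hg : ∀ i < T, g ≤ e * u i / (6 * ((k : ℝ) + 1)) := by
    intro i hi
    have h1 : e * u i / (6 * ((k : ℝ) + 1)) = c1 * t i / (16 * tl) := by
      rw [hc1d, hud]
      ring
    rw [h1, hgd]
    exact div_le_div_of_nonneg_right (mul_le_mul_of_nonneg_left (ht i hi).1 hc1.le) (by positivity)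
  have hsep : ∀ i, i + 1 < T → 96 * ((k : ℝ) + 1) * u i ≤ e * u (i + 1) := by
    intro i hi
    have h1 := hsepC i hi
    have h2 : 0 < u i := hu i (by omega)
    rw [← hlu i, ← hlu (i + 1)] at h1
    have h3 : C * u i ≤ u (i + 1) := by
      by_contra hcon
      have h4 := mul_lt_mul_of_pos_left (not_le.1 hcon) (show 0 < 16 * tl by positivity)
      nlinarith
    rw [div_le_iff₀ he] at hC3
    calc 96 * ((k : ℝ) + 1) * u i ≤ C * e * u i := mul_le_mul_of_nonneg_right hC3 h2.le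
      _ = e * (C * u i) := by ring
      _ ≤ e * u (i + 1) := mul_le_mul_of_nonneg_left h3 he.le
  have h16 : ∀ i, i + 1 = T → 16 * u i ≤ 1 := by
    intro i hi
    have h1 : i = T - 1 := by omega
    rw [hud, h1]
    show 16 * (t (T - 1) / (16 * tl)) ≤ 1
    rw [← htl]
    refine le_of_eq ?_
    field_simp
  obtain ⟨lo, hi, htree, hlen⟩ := treel_scaleU (K := K) r hk hw0 hw W x hx u he he1 T hu hsep g hg 1 one_pos h16
  obtain ⟨S, hSd⟩ : ∃ S : Finset (ℕ × Cf k), S = (range T).image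
      (fun i => ((i : ℕ), ((fun j => u i * x i j : Fin k → ℝ), 2 * u i, e * u i))) := ⟨_, rfl⟩
  have hSS : ScaleSet u x e T = (S : Set (ℕ × Cf k)) := by
    rw [hSd]
    ext p
    simp only [ScaleSet, Set.mem_setOf_eq, coe_image, coe_range, Set.mem_image, Set.mem_Iio]
    exact ⟨fun ⟨i, h1, h2⟩ => ⟨i, h1, h2.symm⟩, fun ⟨i, h1, h2⟩ => ⟨i, h1, h2.symm⟩⟩
  rw [hSS] at htree
  have hS : ∀ p ∈ S, ∃ i < T, p = ((i : ℕ), ((fun j => u i * x i j : Fin k → ℝ), 2 * u i, e * u i)) := by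
    intro p hp
    rw [hSd, mem_image] at hp
    obtain ⟨i, h1, h2⟩ := hp
    exact ⟨i, mem_range.1 h1, h2.symm⟩
  have htree' := htree.reindex f
  have hQ0i : ∀ i < T, Q i ∣ Q0 := fun i hi => by
    rw [hQ0]
    exact (dvd_prod_of_mem Q (mem_range.2 hi)).trans (Dvd.intro_left _ rfl)
  have hcount := hxx ρ (by rw [hQ0]; exact hρ3) (fun i => lo (f i)) (fun i => hi (f i)) g H hg0
    (fun d => ⟨(htree'.1 d).1, hlen (f d), (htree'.1 d).2.2⟩) htree'.2.1
    (by
      rw [hHd]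
      refine mul_le_mul_of_nonneg_right ?_ hy.le
      rw [div_le_iff₀ hlam] at hC2
      nlinarith)
    (by
      rw [hgH]
      have h1 : (1 : ℝ) ≤ 2 ^ D := one_le_pow₀ (by norm_num)
      have h2 : c1 * B ≤ c1 * (τ * y) := by
        refine mul_le_mul_of_nonneg_left (hB.trans ?_) hc1.le
        exact mul_le_mul_of_nonneg_left hlx1 hτ.le
      nlinarith)
    (by
      rw [hgH]
      obtain ⟨z, hz⟩ : ∃ z, z = tl * Real.log M := ⟨_, rfl⟩
      rw [← hz] at htl3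
      have hz1 : 32 ≤ z := by
        have h1 : τ * Real.log M ≤ tl * Real.log M := mul_le_mul_of_nonneg_right htl1 hlM
        linarith
      have hHz : H ≤ z ^ 2 := by
        have h1 : H ≤ 32 * z := by
          rw [hHd, hz]
          have h2 := mul_le_mul_of_nonneg_left hlx2 (show 0 ≤ 16 * tl by positivity)
          linarith
        nlinarith
      have hlz : 0 ≤ Real.log z := Real.log_nonneg (by linarith)
      have hH1 : 1 ≤ H := by
        have h1 : (1 : ℝ) ≤ 2 ^ D := one_le_pow₀ (by norm_num)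
        have h2 : c1 * B ≤ c1 * (τ * y) := by
          refine mul_le_mul_of_nonneg_left (hB.trans ?_) hc1.le
          exact mul_le_mul_of_nonneg_left hlx1 hτ.le
        have h3 : 1 ≤ g * H := by
          rw [hgH]
          nlinarith
        nlinarith
      have h1 : Real.log H ^ D ≤ (2 * Real.log z) ^ D := by
        refine pow_le_pow_left₀ (Real.log_nonneg hH1) ?_ D
        have h2 := Real.log_le_log hH hHz
        rw [Real.log_pow] at h2
        exact_mod_cast h2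
      rw [mul_pow] at h1
      have h2 : H0 * Real.log H ^ D ≤ H0 * 2 ^ D * Real.log z ^ D := by
        have := mul_le_mul_of_nonneg_left h1 (by linarith : 0 ≤ H0)
        linarith
      have h3 : H0 * 2 ^ D * Real.log z ^ D ≤ B * c1 * Real.log z ^ D :=
        mul_le_mul_of_nonneg_right hB3 (pow_nonneg hlz D)
      have h4 : c1 * (B * Real.log z ^ D) ≤ c1 * (τ * Real.log M) := mul_le_mul_of_nonneg_left htl3 hc1.le
      have h5 : c1 * (τ * Real.log M) ≤ c1 * (τ * y) :=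
        mul_le_mul_of_nonneg_left (mul_le_mul_of_nonneg_left hlx1 hτ.le) hc1.le
      linarith)
  have hgHy : g * H / y = c1 * τ := by
    rw [hgH]
    field_simp
  rw [hgHy] at hcount
  have hfin := hwin (fun n => ∃ i < T, ∃ q : Fin r,
    ShapeW K L s (Q i) (W i) χ q (x i) 1 (t i * Real.log (Nat.nth Nat.Prime n)) e0 (Nat.nth Nat.Prime n))
    (δ * (c1 * τ) ^ D) _ (by positivity) hcount (by
      intro N hN
      rw [mem_filter, mem_range, Nat.lt_succ_iff] at hN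
      obtain ⟨h1, h2, h3⟩ := hN
      have hN1 : (N : ℝ) ≤ T' * X := (Nat.le_floor_iff (by positivity)).1 h1
      obtain ⟨a, h4, h5, b, hb, q, h6⟩ := good_shape hr L s Q0 Q W ρ (fun d => labk k W T (f d)) _ _
        (fun d => wtk k w T (f d)) (S : Set (ℕ × Cf k)) htree'
        (fun b hb => by
          obtain ⟨i, hi, rfl⟩ := hS b hb
          exact hi)
        (by rw [hQ0]; exact Dvd.intro _ rfl) hρ1 hQ0i hρ2 χ H hH N h3
      obtain ⟨i, hi, rfl⟩ := hS b hb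
      dsimp only at h6
      have hHy : H ≤ y := by
        rw [hHd]
        rw [div_le_iff₀ hlam] at hC2
        have h7 : 16 * tl ≤ 1 := by nlinarith
        nlinarith
      have h10 : (N : ℝ) ≤ Nat.nth Nat.Prime a := by exact_mod_cast h4
      have h11 : (Nat.nth Nat.Prime a : ℝ) ≤ N + y := h5.trans (by linarith)
      refine ⟨hN1, a, ⟨i, hi, q, ?_⟩, h4, h11⟩
      have h12 : ShapeW K L s (Q i) (W i) χ q (x i) 2 (u i * H) e (Nat.nth Nat.Prime a) := by
        refine shape_rescale ?_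
        rw [mul_comm (u i) 2, mul_comm (u i) e]
        exact h6
      rw [huH] at h12
      have h13 := hnear (Nat.nth Nat.Prime a) (h2.trans h10) (by linarith)
      have h14 : |t i * Real.log (Nat.nth Nat.Prime a) - t i * y| ≤ η * (t i * y) := by
        rw [← mul_sub, abs_mul, abs_of_pos (htpos i hi)]
        calc t i * |Real.log (Nat.nth Nat.Prime a) - y| ≤ t i * (η * y) :=
              mul_le_mul_of_nonneg_left h13 (htpos i hi).le
          _ = η * (t i * y) := by ring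
      have h15 := shape_scale (lam := 1) (c := 1) (e := e) one_pos one_pos he (hx i) hη1
        (by rw [hηd, one_mul]) (mul_pos (htpos i hi) hy) h14 (by rw [mul_one, one_mul]; exact h12)
      have h16 : (fun j => 1 * x i j) = x i := by
        funext j
        exact one_mul _
      rw [h16] at h15
      exact h15.mono (mul_nonneg (htpos i hi).le (Real.log_natCast_nonneg _)) (by norm_num) (by linarith))
  refine le_trans (le_of_eq ?_) hfin
  rw [mul_pow]
  ring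

end Pool.Agent.H62.AU
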