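import Pool.Agent.H62.AU.Pair
import Pool.Agent.H62.AS.Fin
import Pool.Agent.H19.AU.Win

/-!
# [H62 AU Fin] Clauses (1) and (2) of the fourth version with one exponent `D`
-/

set_option autoImplicit false

namespace Pool.Agent.H62.AU

open Filter Finset Pool.Agent.H82.LS Pool.Agent.H62.VK Pool.Agent.H34.RC Pool.Agent.H62.VW Pool.Agent.H19.AS
  Pool.Agent.H62.AS

theorem winU : WinU := fun T hT => by
  obtain ⟨d0, xs, h1, h2, h3⟩ := Pool.Agent.H19.AU.windowsU T hT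
  exact ⟨d0, xs, h1, h2, h3⟩

/-- clauses (1) and (2): along any family of scales; at one of `T` separated scales -/
theorem thm14 (hT : ThmU) (k K r : ℕ) (hk : 1 ≤ k) (hK : 1 ≤ K) :
    ∃ D : ℕ, ∀ (L s : ℕ), 0 < L → Nat.Coprime s L → ∀ (χ : ℕ → Fin r),
      (∀ A : Set (ℕ × ℝ), Scales A →
        (∀ Q : Fin (100 * r * (k + K - 1)) → ℕ, (∀ i, 0 < Q i) → (∀ i, Nat.Coprime (Q i) L) →
          (∀ i j, i ≠ j → Nat.Coprime (Q i) (Q j)) → ∃ i, GoodWS D k K L s χ A (Q i)) ∧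
        ∃ Q₀ : ℕ, 0 < Q₀ ∧ ∀ Q : ℕ, 0 < Q → Nat.Coprime Q Q₀ → GoodWS D k K L s χ A Q) ∧
      ∀ (Q : Fin (100 * r * (k + K - 1)) → ℕ), (∀ i, 0 < Q i) → (∀ i, Nat.Coprime (Q i) L) →
        (∀ i j, i ≠ j → Nat.Coprime (Q i) (Q j)) →
      ∀ e : ℝ, 0 < e → ∃ C d B : ℝ, 1 ≤ C ∧ 0 < d ∧
        ∀ (M : ℕ) (τ : ℝ) (t : Fin (100 * r * (k + K - 1)) → ℝ), ChainU C B D M τ t →
          ∃ i, ∀ w : Fin (k + 1) → ℕ, (∀ j, Nat.Coprime (w j) (Q i)) → ∀ x : Fin k → ℝ, (∀ j, |x j| ≤ 1) →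
            ∃ q : Fin r, d * τ ^ D * M ≤ (({n : ℕ | n < M ∧ ShapeW K L s (Q i) w χ q x 1
              (t i * Real.log (Nat.nth Nat.Prime n)) e (Nat.nth Nat.Prime n)}).ncard : ℝ) := by
  obtain ⟨D1, h1⟩ := thmWS Pool.Agent.H34.AS.thmS k K r hk hK
  obtain ⟨D2, h2⟩ := fullU hT winU k K r hk hK
  refine ⟨D1 + D2, fun L s hL hs χ => ⟨fun A hA => ?_, fun Q hQ hQL hQQ e he => ?_⟩⟩
  · obtain ⟨h3, Q₀, h4, h5⟩ := h1 L s hL hs χ A hA
    refine ⟨fun Q hQ hQL hQQ => ?_, Q₀, h4, fun Q hQ hQ0 => (h5 Q hQ hQ0).anti (Nat.le_add_right _ _)⟩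
    obtain ⟨i, hi⟩ := h3 Q hQ hQL hQQ
    exact ⟨i, hi.anti (Nat.le_add_right _ _)⟩
  · obtain ⟨C, d, B, hC, hd, h⟩ := h2 L s hL hs χ Q hQ hQL hQQ e he
    refine ⟨C, d, max B 3, hC, hd, fun M τ t ht => ?_⟩
    obtain ⟨ht0, ht1, ht2⟩ := ht
    have h3 : 3 ≤ τ * Real.log M := (le_max_right _ _).trans ht0
    have hτ : 0 < τ := pos_of_scale one_pos (by linarith)
    have hlM : 0 ≤ Real.log (M : ℝ) := Real.log_natCast_nonneg M
    have hτ1 : ∀ i, τ ≤ 1 := fun i => by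
      have h1 := (ht1 i).2.1
      have h2 := (ht1 i).1
      nlinarith
    have hle : ∀ i, B * Real.log (t i * Real.log M) ^ D2 ≤ τ * Real.log M := by
      intro i
      obtain ⟨a1, a2, a3⟩ := ht1 i
      have h4 : 3 ≤ t i * Real.log M := h3.trans (mul_le_mul_of_nonneg_right a1 hlM)
      have h5 : 1 ≤ Real.log (t i * Real.log M) := by
        rw [Real.le_log_iff_exp_le (by linarith)]
        linarith [Real.exp_one_lt_d9]
      have h6 : Real.log (t i * Real.log M) ^ D2 ≤ Real.log (t i * Real.log M) ^ (D1 + D2) :=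
        pow_le_pow_right₀ h5 (Nat.le_add_left _ _)
      have h7 : 0 ≤ Real.log (t i * Real.log M) ^ D2 := by positivity
      calc B * Real.log (t i * Real.log M) ^ D2 ≤ max B 3 * Real.log (t i * Real.log M) ^ D2 :=
            mul_le_mul_of_nonneg_right (le_max_left _ _) h7
        _ ≤ max B 3 * Real.log (t i * Real.log M) ^ (D1 + D2) :=
            mul_le_mul_of_nonneg_left h6 (by positivity)
        _ ≤ τ * Real.log M := a3
    obtain ⟨i, hi⟩ := h M τ t ⟨(le_max_left _ _).trans ht0, fun i => ⟨(ht1 i).1, (ht1 i).2.1, hle i⟩, ht2⟩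
    refine ⟨i, fun w hw x hx => ?_⟩
    obtain ⟨q, hq⟩ := hi w hw x hx
    exact ⟨q, (pow_anti_scale (Nat.le_add_left _ _) hd hτ (hτ1 i) M).trans hq⟩

end Pool.Agent.H62.AU
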