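import Pool.Agent.H34.RC.Mq
import Pool.Agent.H79.AU.Tb
import Pool.Agent.H62.AU.Bx
import Pool.Agent.H62.AU.Df

/-!
# [H62 AU MQ] The number of `N` with a good family of positions, windows of any length, uniformly in the intervals

As H34/AS/Mq, with all constants chosen before the intervals: the small and the large `N` are counted in the box as well.
-/

set_option autoImplicit false

namespace Pool.Agent.H62.AU

open Finset Filter Pool.Agent.H21.MT Pool.Agent.H92.MM Pool.Agent.H61.UN Pool.Agent.H96.WP Pool.Agent.H34.RR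
open Pool.Agent.H34.RC

/-- a family with one more rough site -/
private theorem extraI {ι : Type} [Fintype ι] [DecidableEq ι] (x a : ℝ) (L N : ℕ) (B : Finset (ι → ℕ))
    (I : Option ι → Finset ℕ) (hI : I none = Icc 0 L)
    (hB : ∀ v ∈ B, v ∈ IJ ι L ∧ (∀ i, Rgh (x ^ a) (N + v i)) ∧ (∀ i, v i ∈ I (some i)) ∧
      ∃ y ≤ L, (∀ i, v i ≠ y) ∧ Rgh (x ^ a) (N + y)) :
    B.card ≤ ((RJ (Option ι) x a L N).filter (fun h => ∀ j, h j ∈ I j)).card := by
  classical
  have hch : ∀ v : ι → ℕ, ∃ y : ℕ, v ∈ B → (y ≤ L ∧ (∀ i, v i ≠ y) ∧ Rgh (x ^ a) (N + y)) := by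
    intro v
    by_cases hv : v ∈ B
    · obtain ⟨y, h1, h2, h3⟩ := (hB v hv).2.2.2
      exact ⟨y, fun _ => ⟨h1, h2, h3⟩⟩
    · exact ⟨0, fun h => absurd h hv⟩
  choose g hg using hch
  refine card_le_card_of_injOn (fun v => (fun o : Option ι => o.elim (g v) v)) ?_ ?_
  · intro v hv
    have hv' : v ∈ B := hv
    obtain ⟨h1, h2, h3, -⟩ := hB v hv'
    obtain ⟨h4, h5, h6⟩ := hg v hv'
    rw [mem_IJ] at h1
    show (fun o : Option ι => o.elim (g v) v) ∈
      (RJ (Option ι) x a L N).filter (fun h => ∀ j, h j ∈ I j)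
    rw [mem_filter, mem_RJ]
    refine ⟨⟨⟨?_, ?_⟩, ?_⟩, ?_⟩
    · rintro (_ | i)
      · exact h4
      · exact h1.1 i
    · rintro (_ | i) (_ | j) hij
      · rfl
      · exact absurd hij.symm (h5 j)
      · exact absurd hij (h5 i)
      · exact congrArg some (h1.2 hij)
    · rintro (_ | i)
      · exact h6
      · exact h2 i
    · rintro (_ | i)
      · rw [hI, mem_Icc]
        exact ⟨Nat.zero_le _, h4⟩
      · exact h3 i
  · intro v _ v' _ hvv
    funext i
    exact congrFun hvv (some i)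

/-- a family without one more rough site -/
private theorem sameI {ι : Type} [Fintype ι] [DecidableEq ι] (x a : ℝ) (L N : ℕ) (B : Finset (ι → ℕ))
    (I : ι → Finset ℕ) (hB : ∀ v ∈ B, v ∈ IJ ι L ∧ (∀ i, Rgh (x ^ a) (N + v i)) ∧ ∀ i, v i ∈ I i) :
    B.card ≤ ((RJ ι x a L N).filter (fun h => ∀ j, h j ∈ I j)).card := by
  classical
  refine card_le_card fun v hv => ?_
  obtain ⟨h1, h2, h3⟩ := hB v hv
  rw [mem_filter, mem_RJ]
  exact ⟨⟨mem_IJ.1 h1, h2⟩, h3⟩

open Classical in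
theorem good_countU (m : ℕ) (hm : 1 ≤ m) :
    ∃ (s wd κ : ℕ), 1 ≤ s ∧ ∀ w : Fin m → ℝ, (∀ d, 0 ≤ w d) → 100 ≤ ∑ d, w d →
      ∀ R : ℕ, 0 < R → primorial wd ∣ R → ∃ lam0 δ θ T H0 : ℝ, 0 < lam0 ∧ lam0 ≤ 1 ∧ 0 < δ ∧ 0 < θ ∧ 1 ≤ T ∧
        1 ≤ H0 ∧ ∀ᶠ x : ℝ in atTop,
          ∀ (al be : Fin m → ℝ) (g H : ℝ), 0 < g → (∀ d, 0 < al d ∧ al d + g ≤ be d ∧ be d < 1) →
            (∀ d d', d < d' → be d < al d') → H ≤ lam0 * Real.log x → H0 ≤ g * H →
            H0 * Real.log H ^ κ ≤ g * H → ∀ ρ : Fin m → ℕ, (∀ d, Nat.Coprime (ρ d) R) →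
              δ * (g * H / Real.log x) ^ (m * s) * x ≤ (((Tx x).filter (fun N : ℕ => θ * x ≤ (N : ℝ) ∧
                (N : ℝ) ≤ T * x ∧ GdC m s R ρ w al be H N)).card : ℝ) := by
  obtain ⟨s, a, wd, hs, ha, ha1, hob⟩ := box_class1 m hm
  have hn0 : 0 < m * s := Nat.mul_pos (by omega) (by omega)
  have hne : Nonempty (Fin (m * s)) := ⟨⟨0, hn0⟩⟩
  have hcard : Fintype.card (Fin (m * s)) = m * s := Fintype.card_fin _
  have hcardO : Fintype.card (Option (Fin (m * s))) = m * s + 1 := by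
    rw [Fintype.card_option, hcard]
  obtain ⟨Ct, κt, hCt, htail⟩ := Pool.Agent.H79.AU.tailBU (Fin (m * s)) a ha
  obtain ⟨Co, κo, hCo, htot⟩ := Pool.Agent.H79.AU.totalBU (Option (Fin (m * s))) a ha
  obtain ⟨Ch, κh, hCh, hhead⟩ := Pool.Agent.H79.AU.headBU (Fin (m * s)) a ha
  rw [hcard] at htail hhead
  rw [hcardO] at htot
  refine ⟨s, wd, κt + κo + κh, hs, ?_⟩
  intro w hw hw100 R hR hRw
  obtain ⟨c0, hc0, hob⟩ := hob w hw hw100 R hR hRw
  have hsr : (0 : ℝ) < s := by exact_mod_cast hs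
  have hRr : (0 : ℝ) < R := by exact_mod_cast hR
  obtain ⟨cR, hcRd⟩ : ∃ cR : ℝ, cR = (1 / (4 * (s : ℝ) * R)) ^ (m * s) := ⟨_, rfl⟩
  have hcR : 0 < cR := by rw [hcRd]; positivity
  have hT1 : (1 : ℝ) ≤ max 1 (8 * Ct * 2 ^ (m * s) / (c0 * cR)) := le_max_left _ _
  have hT2 : 8 * Ct * 2 ^ (m * s) / (c0 * cR) ≤ max 1 (8 * Ct * 2 ^ (m * s) / (c0 * cR)) := le_max_right _ _
  generalize max 1 (8 * Ct * 2 ^ (m * s) / (c0 * cR)) = T at hT1 hT2
  have hT0 : 0 < T := by linarith
  obtain ⟨θ, hθd⟩ : ∃ θ : ℝ, θ = c0 * cR / (8 * Ch * 2 ^ (m * s)) := ⟨_, rfl⟩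
  have hθ : 0 < θ := by rw [hθd]; positivity
  have hθC : Ch * θ * 2 ^ (m * s) = c0 / 8 * cR := by
    rw [hθd]
    field_simp
  refine ⟨min 1 (c0 * cR / (4 * Co * 2 ^ (m * s + 1))), c0 / 2 * cR, θ, T, max 8 (8 * (s : ℝ) * R),
    by positivity, min_le_left _ _, by positivity, hθ, hT1, (by norm_num : (1 : ℝ) ≤ 8).trans (le_max_left _ _), ?_⟩
  have hlogt := Real.tendsto_log_atTop
  filter_upwards [hob, htail T hT1, htot, hhead θ hθ, eventually_ge_atTop (4 : ℝ),
    hlogt.eventually_ge_atTop 1] with x hob htail htot hhead hx4 hlog1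
  intro al be g H hg0 hI' hlt hHle hHge hHge2 ρ hρ
  have hI : ∀ d, 0 < al d ∧ al d < be d ∧ be d < 1 := fun d => by
    obtain ⟨h1, h2, h3⟩ := hI' d
    exact ⟨h1, by linarith, h3⟩
  have hg : ∀ d, g ≤ be d - al d := fun d => by linarith [(hI' d).2.1]
  obtain ⟨Dd, hDd⟩ : ∃ Dd : ℝ, Dd = ∏ d, (be d - al d) ^ s := ⟨_, rfl⟩
  have hDd0 : 0 < Dd := by
    rw [hDd]
    refine prod_pos fun d _ => pow_pos ?_ _
    linarith [(hI d).2.1]
  have hDg : g ^ (m * s) ≤ Dd := by
    rw [hDd]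
    have h1 : ∏ _d : Fin m, g ^ s ≤ ∏ d, (be d - al d) ^ s :=
      prod_le_prod (fun _ _ => by positivity) fun d _ => pow_le_pow_left₀ hg0.le (hg d) s
    refine le_trans (le_of_eq ?_) h1
    rw [prod_const, card_univ, Fintype.card_fin, ← pow_mul, mul_comm s m]
  have hg1 : g ≤ 1 := by
    have h3 := hg ⟨0, by omega⟩
    have h4 := hI ⟨0, by omega⟩
    linarith [h4.1, h4.2.2]
  have hx0 : 0 < x := by linarith
  have hlog : 0 < Real.log x := by linarith
  have hgH8 : 8 ≤ g * H := (le_max_left _ _).trans hHge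
  have hgHR : 8 * (s : ℝ) * R ≤ g * H := (le_max_right _ _).trans hHge
  have hHpos : 0 < H := by
    by_contra hcon
    have := mul_nonpos_of_nonneg_of_nonpos hg0.le (not_lt.1 hcon)
    linarith
  have hgHH : g * H ≤ H := by nlinarith
  have hH8 : 8 ≤ H := hgH8.trans hgHH
  have hH1 : 1 ≤ H := by linarith
  have hlogH : 1 ≤ Real.log H := by
    rw [Real.le_log_iff_exp_le hHpos]
    linarith [Real.exp_one_lt_d9]
  have hgH : 4 ≤ g * H := by linarith
  obtain ⟨b, hbd⟩ : ∃ b, b = g * H / 2 := ⟨_, rfl⟩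
  have hb1 : 1 ≤ b := by rw [hbd]; linarith
  have hbκ : ∀ κ' : ℕ, κ' ≤ κt + κo + κh → Real.log H ^ κ' ≤ b := by
    intro κ' hκ'
    have h1 : Real.log H ^ κ' ≤ Real.log H ^ (κt + κo + κh) := pow_le_pow_right₀ hlogH hκ'
    have h2 : 0 ≤ Real.log H ^ (κt + κo + κh) := by positivity
    have h3 : 8 * Real.log H ^ (κt + κo + κh) ≤ max 8 (8 * (s : ℝ) * R) * Real.log H ^ (κt + κo + κh) :=
      mul_le_mul_of_nonneg_right (le_max_left _ _) h2
    rw [hbd]
    linarith
  have hHlog : H ≤ Real.log x := by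
    refine hHle.trans ?_
    have h1 : min 1 (c0 * cR / (4 * Co * 2 ^ (m * s + 1))) ≤ 1 := min_le_left _ _
    nlinarith
  obtain ⟨lam, hlamd⟩ : ∃ lam : ℝ, lam = H / Real.log x := ⟨_, rfl⟩
  have hlam : 0 < lam := by rw [hlamd]; positivity
  have hH : H = lam * Real.log x := by
    rw [hlamd]
    field_simp
  have hlam3 : Co * 2 ^ (m * s + 1) * lam ≤ c0 / 4 * cR := by
    have h0 : lam ≤ min 1 (c0 * cR / (4 * Co * 2 ^ (m * s + 1))) := by
      rw [hlamd, div_le_iff₀ hlog]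
      exact hHle
    have h1 := h0.trans (min_le_right _ _)
    rw [le_div_iff₀ (by positivity)] at h1
    nlinarith
  obtain ⟨L, hL⟩ : ∃ L : ℕ, L = ⌊H⌋₊ := ⟨_, rfl⟩
  have hLle : ∀ y : ℕ, (y : ℝ) ≤ H ↔ y ≤ L := by
    intro y
    rw [hL]
    exact (Nat.le_floor_iff hHpos.le).symm
  have hL1 : 1 ≤ L := (hLle 1).1 (by simpa using hH1)
  have hLH : (L : ℝ) ≤ H := (hLle L).2 le_rfl
  have hLlog : (L : ℝ) ≤ Real.log x := hLH.trans hHlog
  have hob := hob L hL1 hLlog
  obtain ⟨BB, hBB⟩ : ∃ BB, BB = BXC m s R ρ al be H := ⟨_, rfl⟩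
  have hBBc := bxcU m s R hs hR al be hI hlt H hHpos
    (fun d => hgHR.trans (mul_le_mul_of_nonneg_right (hg d) hHpos.le)) ρ
  rw [← hBB, ← hcRd] at hBBc
  have hmem : ∀ u ∈ BB, (∀ i, u i ≤ L) ∧ StrictMono u ∧ (∀ i, u i ≡ ρ (finProdFinEquiv.symm i).1 [MOD R]) ∧
      ∀ (d : Fin m) (l : Fin s), al d * H ≤ (u (finProdFinEquiv (d, l)) : ℝ) ∧
        (u (finProdFinEquiv (d, l)) : ℝ) ≤ be d * H := by
    intro u hu
    rw [hBB, mem_BXC, ← hL] at hu
    exact hu
  -- product of the lengths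
  have hDH : ∏ d, ((be d - al d) * H) ^ s = Dd * H ^ (m * s) := by
    rw [hDd]
    have h1 : ∀ d : Fin m, ((be d - al d) * H) ^ s = (be d - al d) ^ s * H ^ s := fun d =>
      mul_pow _ _ _
    rw [prod_congr rfl fun d _ => h1 d, prod_mul_distrib, prod_const, card_univ, Fintype.card_fin,
      ← pow_mul, mul_comm s m]
  rw [hDH] at hBBc
  obtain ⟨M, hM⟩ : ∃ M : ℝ, M = BB.card * (x / Real.log x ^ (m * s)) := ⟨_, rfl⟩
  have hxl : 0 < x / Real.log x ^ (m * s) := by positivity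
  have hMge : cR * Dd * lam ^ (m * s) * x ≤ M := by
    rw [hM]
    have h1 := mul_le_mul_of_nonneg_right hBBc hxl.le
    refine le_trans (le_of_eq ?_) h1
    rw [hH, mul_pow]
    field_simp
  -- the three kinds of pairs
  obtain ⟨P0, hP0⟩ : ∃ P0 : (Fin (m * s) → ℕ) → ℕ → Prop, P0 = fun (u : Fin (m * s) → ℕ) (N : ℕ) =>
    (N : ℝ) ≤ θ * x ∧ ∀ i, Rgh (x ^ a) (N + u i) := ⟨_, rfl⟩
  obtain ⟨P1, hP1⟩ : ∃ P1 : (Fin (m * s) → ℕ) → ℕ → Prop, P1 = fun (u : Fin (m * s) → ℕ) (N : ℕ) =>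
    T * x < (N : ℝ) ∧ ∀ i, Rgh (x ^ a) (N + u i) := ⟨_, rfl⟩
  obtain ⟨P2, hP2⟩ : ∃ P2 : (Fin (m * s) → ℕ) → ℕ → Prop, P2 = fun (u : Fin (m * s) → ℕ) (N : ℕ) =>
    (∀ i, Rgh (x ^ a) (N + u i)) ∧ ∃ y ≤ L, (∀ i, u i ≠ y) ∧ Rgh (x ^ a) (N + y) := ⟨_, rfl⟩
  obtain ⟨P3, hP3⟩ : ∃ P3 : (Fin (m * s) → ℕ) → ℕ → Prop, P3 = fun (u : Fin (m * s) → ℕ) (N : ℕ) =>
    (θ * x ≤ (N : ℝ) ∧ (N : ℝ) ≤ T * x) ∧ R ∣ N ∧ (∀ i, Rgh (x ^ a) (N + u i)) ∧
      1 < wc w (fun q : Fin m × Fin s => u (finProdFinEquiv q)) N ∧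
      (∀ y ≤ L, Rgh (x ^ a) (N + y) → ∃ i, u i = y) := ⟨_, rfl⟩
  have key : ∀ u ∈ BB, c0 * x / Real.log x ^ (m * s) ≤
      ∑ N ∈ (Tx x).filter (P0 u), gw x N + ∑ N ∈ (Tx x).filter (P1 u), gw x N +
        ∑ N ∈ (Tx x).filter (P2 u), gw x N + ∑ N ∈ (Tx x).filter (P3 u), gw x N := by
    intro u hu
    obtain ⟨hu1, hu2, hu3, -⟩ := hmem u hu
    have hinj : Function.Injective (fun q : Fin m × Fin s => u (finProdFinEquiv q)) :=
      hu2.injective.comp finProdFinEquiv.injective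
    have hRg : ∀ N, (∀ i, Rgh (x ^ a) (N + u i)) ↔
        ∀ q : Fin m × Fin s, Rgh (x ^ a) (N + u (finProdFinEquiv q)) := by
      intro N
      constructor
      · exact fun h q => h _
      · intro h i
        have := h (finProdFinEquiv.symm i)
        rwa [Equiv.apply_symm_apply] at this
    refine (hob (fun q => u (finProdFinEquiv q)) (mem_IJ.2 ⟨fun q => hu1 _, hinj⟩) (by
      intro q
      have h1 := hu3 (finProdFinEquiv q)
      have h2 : Nat.gcd (ρ (finProdFinEquiv.symm (finProdFinEquiv q)).1) R = 1 := hρ _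
      show Nat.gcd (u (finProdFinEquiv q)) R = 1
      rw [← h2]
      exact Nat.ModEq.gcd_eq h1)).trans ?_
    rw [sum_filter, sum_filter, sum_filter, sum_filter, sum_filter, ← sum_add_distrib, ← sum_add_distrib,
      ← sum_add_distrib]
    refine sum_le_sum fun N _ => ?_
    have hg := (gw_pos x N).le
    by_cases hE : R ∣ N ∧ (∀ q : Fin m × Fin s, Rgh (x ^ a) (N + u (finProdFinEquiv q))) ∧
        1 < wc w (fun q : Fin m × Fin s => u (finProdFinEquiv q)) N
    · rw [if_pos hE]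
      have hE2 := (hRg N).2 hE.2.1
      have q0 : (0 : ℝ) ≤ if P0 u N then gw x N else 0 := by split_ifs <;> linarith
      have q1 : (0 : ℝ) ≤ if P1 u N then gw x N else 0 := by split_ifs <;> linarith
      have q2 : (0 : ℝ) ≤ if P2 u N then gw x N else 0 := by split_ifs <;> linarith
      have q3 : (0 : ℝ) ≤ if P3 u N then gw x N else 0 := by split_ifs <;> linarith
      by_cases h0 : P0 u N
      · rw [if_pos h0]
        linarith
      · by_cases h1 : P1 u N
        · rw [if_pos h1]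
          linarith
        · by_cases h2 : P2 u N
          · rw [if_pos h2]
            linarith
          · have h3 : P3 u N := by
              rw [hP3]
              refine ⟨⟨?_, ?_⟩, hE.1, hE2, hE.2.2, ?_⟩
              · by_contra hc
                apply h0
                rw [hP0]
                exact ⟨(lt_of_not_ge hc).le, hE2⟩
              · by_contra hc
                apply h1
                rw [hP1]
                exact ⟨lt_of_not_ge hc, hE2⟩
              · intro y hy hr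
                by_contra hne
                push Not at hne
                apply h2
                rw [hP2]
                exact ⟨hE2, y, hy, hne, hr⟩
            rw [if_pos h3]
            linarith
    · rw [if_neg hE]
      have : (0 : ℝ) ≤ if P0 u N then gw x N else 0 := by split_ifs <;> linarith
      have : (0 : ℝ) ≤ if P1 u N then gw x N else 0 := by split_ifs <;> linarith
      have : (0 : ℝ) ≤ if P2 u N then gw x N else 0 := by split_ifs <;> linarith
      have : (0 : ℝ) ≤ if P3 u N then gw x N else 0 := by split_ifs <;> linarith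
      linarith
  have hS0 : c0 * M ≤ ∑ u ∈ BB, (∑ N ∈ (Tx x).filter (P0 u), gw x N + ∑ N ∈ (Tx x).filter (P1 u), gw x N +
      ∑ N ∈ (Tx x).filter (P2 u), gw x N + ∑ N ∈ (Tx x).filter (P3 u), gw x N) := by
    have h1 : ∑ u ∈ BB, c0 * x / Real.log x ^ (m * s) ≤ _ := sum_le_sum key
    rw [sum_const, nsmul_eq_mul] at h1
    refine le_trans (le_of_eq ?_) h1
    rw [hM]
    ring
  rw [sum_add_distrib, sum_add_distrib, sum_add_distrib, main_swap, main_swap, main_swap, main_swap] at hS0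
  have hfl : ∀ d : Fin m, ⌈al d * H⌉₊ ≤ ⌊be d * H⌋₊ ∧
      b ≤ ((⌊be d * H⌋₊ - ⌈al d * H⌉₊ : ℕ) : ℝ) ∧
      (((Icc ⌈al d * H⌉₊ ⌊be d * H⌋₊).card : ℕ) : ℝ) ≤ 2 * ((be d - al d) * H) := by
    intro d
    obtain ⟨h1, h2, h3⟩ := hI d
    have h4 : (⌈al d * H⌉₊ : ℝ) < al d * H + 1 := Nat.ceil_lt_add_one (by positivity)
    have h4' : al d * H ≤ (⌈al d * H⌉₊ : ℝ) := Nat.le_ceil _
    have h5 : be d * H - 1 < (⌊be d * H⌋₊ : ℝ) := by
      have := Nat.lt_floor_add_one (be d * H)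
      linarith
    have hbH : 0 ≤ be d * H := mul_nonneg (by linarith) hHpos.le
    have h5' : (⌊be d * H⌋₊ : ℝ) ≤ be d * H := Nat.floor_le hbH
    have h6 : 4 ≤ (be d - al d) * H := hgH.trans (mul_le_mul_of_nonneg_right (hg d) hHpos.le)
    have h6' : g * H ≤ (be d - al d) * H := mul_le_mul_of_nonneg_right (hg d) hHpos.le
    have h7 : (⌈al d * H⌉₊ : ℝ) ≤ (⌊be d * H⌋₊ : ℝ) := by nlinarith
    have h8 : ⌈al d * H⌉₊ ≤ ⌊be d * H⌋₊ := by exact_mod_cast h7
    refine ⟨h8, ?_, ?_⟩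
    · rw [Nat.cast_sub h8, hbd]
      have : g * H / 2 ≤ (be d - al d) * H - 2 := by linarith
      have h9 : (be d - al d) * H = be d * H - al d * H := by ring
      linarith
    · rw [Nat.card_Icc, Nat.cast_sub (by omega), Nat.cast_add, Nat.cast_one]
      have h9 : (be d - al d) * H = be d * H - al d * H := by ring
      linarith
  have hLtop : ∀ d : Fin m, ⌊be d * H⌋₊ ≤ L := by
    intro d
    rw [hL]
    apply Nat.floor_le_floor
    have := (hI d).2.2
    nlinarith
  obtain ⟨J, hJd⟩ : ∃ J : Fin (m * s) → Finset ℕ, J =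
      fun i => Icc ⌈al (finProdFinEquiv.symm i).1 * H⌉₊ ⌊be (finProdFinEquiv.symm i).1 * H⌋₊ := ⟨_, rfl⟩
  have hJ : ∀ i, J i = Icc ⌈al (finProdFinEquiv.symm i).1 * H⌉₊ ⌊be (finProdFinEquiv.symm i).1 * H⌋₊ := by
    intro i
    rw [hJd]
  have hJu : ∀ u ∈ BB, ∀ i, u i ∈ J i := by
    intro u hu i
    obtain ⟨hu1, hu2, -, hu4⟩ := hmem u hu
    rw [hJ, mem_Icc]
    have h9 := hu4 (finProdFinEquiv.symm i).1 (finProdFinEquiv.symm i).2
    have h10 : finProdFinEquiv ((finProdFinEquiv.symm i).1, (finProdFinEquiv.symm i).2) = i := by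
      rw [Prod.mk.eta, Equiv.apply_symm_apply]
    rw [h10] at h9
    exact ⟨Nat.ceil_le.2 h9.1, Nat.le_floor h9.2⟩
  have hbox1 : ∀ i, ∃ t H' : ℕ, J i = Icc t (t + H') ∧ b ≤ ((H' + 1 : ℕ) : ℝ) ∧ ((t + H' : ℕ) : ℝ) ≤ H := by
    intro i
    obtain ⟨h1, h2, -⟩ := hfl (finProdFinEquiv.symm i).1
    refine ⟨⌈al (finProdFinEquiv.symm i).1 * H⌉₊, ⌊be (finProdFinEquiv.symm i).1 * H⌋₊ -
      ⌈al (finProdFinEquiv.symm i).1 * H⌉₊, ?_, ?_, ?_⟩
    · rw [hJ, Nat.add_sub_cancel' h1]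
    · push_cast at h2 ⊢
      linarith
    · rw [Nat.add_sub_cancel' h1]
      have h3 : ((⌊be (finProdFinEquiv.symm i).1 * H⌋₊ : ℕ) : ℝ) ≤ L := by
        exact_mod_cast hLtop _
      exact h3.trans hLH
  have hJprod : ∏ i : Fin (m * s), ((J i).card : ℝ) ≤ 2 ^ (m * s) * (Dd * H ^ (m * s)) := by
    have h5 : ∏ i : Fin (m * s), ((J i).card : ℝ) ≤
        ∏ i : Fin (m * s), (2 * ((be (finProdFinEquiv.symm i).1 -
          al (finProdFinEquiv.symm i).1) * H)) := by
      refine prod_le_prod (fun i _ => Nat.cast_nonneg _) fun i _ => ?_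
      rw [hJ]
      exact (hfl _).2.2
    refine h5.trans (le_of_eq ?_)
    rw [prod_mul_distrib, prod_const, card_univ, hcard, ← hDH]
    congr 1
    have h6 : ∏ i : Fin (m * s), ((be (finProdFinEquiv.symm i).1 -
        al (finProdFinEquiv.symm i).1) * H) =
        ∏ q : Fin m × Fin s, ((be q.1 - al q.1) * H) :=
      Equiv.prod_comp finProdFinEquiv.symm (fun q : Fin m × Fin s => (be q.1 - al q.1) * H)
    rw [h6, Fintype.prod_prod_type]
    refine prod_congr rfl fun d _ => ?_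
    show ∏ _y : Fin s, (be d - al d) * H = ((be d - al d) * H) ^ s
    rw [prod_const, card_univ, Fintype.card_fin]
  have hJ0 : (0 : ℝ) ≤ ∏ i : Fin (m * s), ((J i).card : ℝ) := prod_nonneg fun i _ => Nat.cast_nonneg _
  have hMB : cR * (Dd * H ^ (m * s)) * (x / Real.log x ^ (m * s)) ≤ M := by
    rw [hM]
    exact mul_le_mul_of_nonneg_right hBBc hxl.le
  have hbJ : BoxU b H J := hbox1
  -- small `N`
  have hF0 : ∑ N ∈ Tx x, gw x N * ((BB.filter (fun u => P0 u N)).card : ℝ) ≤ c0 / 8 * M := by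
    have hh := hhead b H (by linarith) hb1 (hbκ κh (by omega)) L J hbJ
    have h1 : ∑ N ∈ Tx x, gw x N * ((BB.filter (fun u => P0 u N)).card : ℝ) ≤
        ∑ N ∈ (Tx x).filter (fun N : ℕ => (N : ℝ) ≤ θ * x),
          gw x N * (((RJ (Fin (m * s)) x a L N).filter (fun h => ∀ j, h j ∈ J j)).card : ℝ) := by
      rw [sum_filter]
      refine sum_le_sum fun N _ => ?_
      by_cases hN : (N : ℝ) ≤ θ * x
      · rw [if_pos hN]
        refine mul_le_mul_of_nonneg_left ?_ (gw_pos x N).le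
        have h0 := sameI x a L N (BB.filter (fun u => P0 u N)) J (by
          intro u hu
          rw [mem_filter, hP0] at hu
          obtain ⟨hu1, hu2, -⟩ := hmem u hu.1
          exact ⟨mem_IJ.2 ⟨hu1, hu2.injective⟩, hu.2.2, hJu u hu.1⟩)
        refine Nat.cast_le.2 (h0.trans (le_of_eq ?_))
        congr
      · rw [if_neg hN]
        have : BB.filter (fun u => P0 u N) = ∅ := by
          rw [filter_eq_empty_iff]
          intro u _ hu
          rw [hP0] at hu
          exact hN hu.1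
        rw [this, card_empty, Nat.cast_zero, mul_zero]
    refine h1.trans ((le_of_eq (sum_congr rfl fun N _ => by congr)).trans (hh.trans ?_))
    calc Ch * θ * x * (∏ j, ((J j).card : ℝ)) / Real.log x ^ (m * s)
        ≤ Ch * θ * x * (2 ^ (m * s) * (Dd * H ^ (m * s))) / Real.log x ^ (m * s) := by
          gcongr
      _ = Ch * θ * 2 ^ (m * s) * (Dd * H ^ (m * s) * (x / Real.log x ^ (m * s))) := by
          field_simp
      _ = c0 / 8 * (cR * (Dd * H ^ (m * s)) * (x / Real.log x ^ (m * s))) := by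
          rw [hθC]
          ring
      _ ≤ c0 / 8 * M := mul_le_mul_of_nonneg_left hMB (by positivity)
  -- far part
  have hF1 : ∑ N ∈ Tx x, gw x N * ((BB.filter (fun u => P1 u N)).card : ℝ) ≤ c0 / 8 * M := by
    have hh := htail b H (by linarith) hb1 (hbκ κt (by omega)) L J hbJ
    have h1 : ∑ N ∈ Tx x, gw x N * ((BB.filter (fun u => P1 u N)).card : ℝ) ≤
        ∑ N ∈ (Tx x).filter (fun N : ℕ => T * x < (N : ℝ)),
          gw x N * (((RJ (Fin (m * s)) x a L N).filter (fun h => ∀ j, h j ∈ J j)).card : ℝ) := by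
      rw [sum_filter]
      refine sum_le_sum fun N _ => ?_
      by_cases hN : T * x < (N : ℝ)
      · rw [if_pos hN]
        refine mul_le_mul_of_nonneg_left ?_ (gw_pos x N).le
        have h0 := sameI x a L N (BB.filter (fun u => P1 u N)) J (by
          intro u hu
          rw [mem_filter, hP1] at hu
          obtain ⟨hu1, hu2, -⟩ := hmem u hu.1
          exact ⟨mem_IJ.2 ⟨hu1, hu2.injective⟩, hu.2.2, hJu u hu.1⟩)
        refine Nat.cast_le.2 (h0.trans (le_of_eq ?_))
        congr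
      · rw [if_neg hN]
        have : BB.filter (fun u => P1 u N) = ∅ := by
          rw [filter_eq_empty_iff]
          intro u _ hu
          rw [hP1] at hu
          exact hN hu.1
        rw [this, card_empty, Nat.cast_zero, mul_zero]
    refine h1.trans ((le_of_eq (sum_congr rfl fun N _ => by congr)).trans (hh.trans ?_))
    have h2 : Ct / T * 2 ^ (m * s) ≤ c0 / 8 * cR := by
      rw [div_le_iff₀ (by positivity)] at hT2
      rw [div_mul_eq_mul_div, div_le_iff₀ hT0]
      linarith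
    calc Ct / T * x * (∏ j, ((J j).card : ℝ)) / Real.log x ^ (m * s)
        ≤ Ct / T * x * (2 ^ (m * s) * (Dd * H ^ (m * s))) / Real.log x ^ (m * s) := by
          gcongr
      _ = Ct / T * 2 ^ (m * s) * (Dd * H ^ (m * s) * (x / Real.log x ^ (m * s))) := by
          field_simp
      _ ≤ c0 / 8 * cR * (Dd * H ^ (m * s) * (x / Real.log x ^ (m * s))) :=
          mul_le_mul_of_nonneg_right h2 (by positivity)
      _ = c0 / 8 * (cR * (Dd * H ^ (m * s)) * (x / Real.log x ^ (m * s))) := by ring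
      _ ≤ c0 / 8 * M := mul_le_mul_of_nonneg_left hMB (by positivity)
  -- pairs with one more rough site
  have hF2 : ∑ N ∈ Tx x, gw x N * ((BB.filter (fun u => P2 u N)).card : ℝ) ≤ c0 / 4 * M := by
    obtain ⟨I, hId⟩ : ∃ I : Option (Fin (m * s)) → Finset ℕ, I = fun o => o.elim (Icc 0 L) J := ⟨_, rfl⟩
    have hInone : I none = Icc 0 L := by rw [hId]; rfl
    have hIsome : ∀ i, I (some i) = J i := by
      intro i
      rw [hId]
      rfl
    have hbox : BoxU b H I := by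
      rintro (_ | i)
      · refine ⟨0, L, by rw [hInone, zero_add], ?_, by rw [zero_add]; exact hLH⟩
        have h1 : H - 1 < (L : ℝ) := by
          rw [hL]
          have := Nat.lt_floor_add_one H
          linarith
        push_cast
        rw [hbd]
        linarith
      · rw [hIsome]
        exact hbox1 i
    have htot' := htot b H (by linarith) hb1 (hbκ κo (by omega)) L I hbox
    have h1 : ∑ N ∈ Tx x, gw x N * ((BB.filter (fun u => P2 u N)).card : ℝ) ≤
        ∑ N ∈ Tx x, gw x N * (((RJ (Option (Fin (m * s))) x a L N).filter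
          (fun h => ∀ j, h j ∈ I j)).card : ℝ) := by
      refine sum_le_sum fun N _ => ?_
      refine mul_le_mul_of_nonneg_left ?_ (gw_pos x N).le
      have := extraI x a L N (BB.filter (fun u => P2 u N)) I hInone (by
        intro u hu
        rw [mem_filter, hP2] at hu
        obtain ⟨hu1, hu2, -, hu4⟩ := hmem u hu.1
        refine ⟨mem_IJ.2 ⟨hu1, hu2.injective⟩, hu.2.1, fun i => ?_, hu.2.2⟩
        rw [hIsome]
        exact hJu u hu.1 i)
      exact_mod_cast this
    refine h1.trans ((le_of_eq ?_).trans (htot'.trans ?_))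
    · refine sum_congr rfl fun N _ => ?_
      congr 3
    · have h2 : ∏ j, ((I j).card : ℝ) ≤ 2 ^ (m * s + 1) * H * (Dd * H ^ (m * s)) := by
        rw [Fintype.prod_option, hInone]
        have h3 : ((Icc 0 L).card : ℝ) ≤ 2 * H := by
          rw [Nat.card_Icc]
          push_cast
          have : (1 : ℝ) ≤ L := by exact_mod_cast hL1
          linarith
        have h4 : ∏ i : Fin (m * s), ((I (some i)).card : ℝ) ≤
            2 ^ (m * s) * (Dd * H ^ (m * s)) := by
          refine le_trans (le_of_eq ?_) hJprod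
          exact prod_congr rfl fun i _ => by rw [hIsome]
        have h7 : (0 : ℝ) ≤ ∏ i : Fin (m * s), ((I (some i)).card : ℝ) :=
          prod_nonneg fun i _ => Nat.cast_nonneg _
        calc ((Icc 0 L).card : ℝ) * ∏ i : Fin (m * s), ((I (some i)).card : ℝ)
            ≤ 2 * H * (2 ^ (m * s) * (Dd * H ^ (m * s))) :=
              mul_le_mul h3 h4 h7 (by positivity)
          _ = 2 ^ (m * s + 1) * H * (Dd * H ^ (m * s)) := by ring
      calc Co * x * (∏ j, ((I j).card : ℝ)) / Real.log x ^ (m * s + 1)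
          ≤ Co * x * (2 ^ (m * s + 1) * H * (Dd * H ^ (m * s))) / Real.log x ^ (m * s + 1) := by
            gcongr
        _ = (Co * 2 ^ (m * s + 1) * lam) * (Dd * H ^ (m * s) * (x / Real.log x ^ (m * s))) := by
            rw [hH, pow_succ (Real.log x)]
            field_simp
        _ ≤ (c0 / 4 * cR) * (Dd * H ^ (m * s) * (x / Real.log x ^ (m * s))) := by
            apply mul_le_mul_of_nonneg_right hlam3
            positivity
        _ = c0 / 4 * (cR * (Dd * H ^ (m * s)) * (x / Real.log x ^ (m * s))) := by ring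
        _ ≤ c0 / 4 * M := by
            rw [hM]
            apply mul_le_mul_of_nonneg_left _ (by positivity)
            exact mul_le_mul_of_nonneg_right hBBc hxl.le
  -- the main part
  have hF3 : ∑ N ∈ Tx x, gw x N * ((BB.filter (fun u => P3 u N)).card : ℝ) ≤
      (((Tx x).filter (fun N : ℕ => θ * x ≤ (N : ℝ) ∧ (N : ℝ) ≤ T * x ∧
        GdC m s R ρ w al be H N)).card : ℝ) := by
    rw [card_eq_sum_ones, Nat.cast_sum, sum_filter]
    refine sum_le_sum fun N hN => ?_
    by_cases hex : ∃ u ∈ BB, P3 u N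
    · obtain ⟨u, hu, hu3⟩ := hex
      have hle : (BB.filter (fun u => P3 u N)).card ≤ 1 := by
        rw [card_le_one]
        intro u1 h1 u2 h2
        rw [mem_filter, hP3] at h1 h2
        obtain ⟨h1m, -, -, h1r, -, h1s⟩ := h1
        obtain ⟨h2m, -, -, h2r, -, h2s⟩ := h2
        obtain ⟨h1l, h1st, -⟩ := hmem u1 h1m
        obtain ⟨h2l, h2st, -⟩ := hmem u2 h2m
        rw [← StrictMono.range_inj h1st h2st]
        ext y
        constructor
        · rintro ⟨i, rfl⟩
          exact h2s _ (h1l i) (h1r i)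
        · rintro ⟨i, rfl⟩
          exact h1s _ (h2l i) (h2r i)
      have hG : θ * x ≤ (N : ℝ) ∧ (N : ℝ) ≤ T * x ∧ GdC m s R ρ w al be H N := by
        rw [hP3] at hu3
        obtain ⟨h1, h2, h3, h4, h5⟩ := hu3
        refine ⟨h1.1, h1.2, h2, u, by rw [← hBB]; exact hu, h4, fun y hy hp => ?_⟩
        exact h5 y ((hLle y).1 hy) (main_rough (by linarith) ha1 hN hp)
      rw [if_pos hG]
      have h6 : ((BB.filter (fun u => P3 u N)).card : ℝ) ≤ 1 := by exact_mod_cast hle
      calc gw x N * ((BB.filter (fun u => P3 u N)).card : ℝ) ≤ 1 * 1 :=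
            mul_le_mul (gw_le_one x N) h6 (Nat.cast_nonneg _) zero_le_one
        _ = ((1 : ℕ) : ℝ) := by norm_num
    · have h7 : BB.filter (fun u => P3 u N) = ∅ := by
        rw [filter_eq_empty_iff]
        intro u hu hu3
        exact hex ⟨u, hu, hu3⟩
      rw [h7, card_empty, Nat.cast_zero, mul_zero]
      split_ifs <;> simp
  have h8 : c0 / 2 * cR * (g * H / Real.log x) ^ (m * s) * x ≤ c0 / 2 * (cR * Dd * lam ^ (m * s) * x) := by
    have e1 : g * H / Real.log x = g * lam := by rw [hlamd, mul_div_assoc]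
    rw [e1, mul_pow]
    have e2 : g ^ (m * s) * (lam ^ (m * s) * x) ≤ Dd * (lam ^ (m * s) * x) :=
      mul_le_mul_of_nonneg_right hDg (by positivity)
    have e3 := mul_le_mul_of_nonneg_left e2 (show 0 ≤ c0 / 2 * cR by positivity)
    linarith
  have h9 : c0 / 2 * (cR * Dd * lam ^ (m * s) * x) ≤ c0 / 2 * M :=
    mul_le_mul_of_nonneg_left hMge (by positivity)
  linarith

end Pool.Agent.H62.AU
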