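import Pool.Agent.H62.AU.Thm
import Pool.Agent.H62.AU.Fin

/-!
# [H62 AU Main] Clauses (1), (2) and clause (3), without hypotheses
-/

set_option autoImplicit false

namespace Pool.Agent.H62.AU

open Filter Finset Pool.Agent.H82.LS Pool.Agent.H62.VK Pool.Agent.H34.RC Pool.Agent.H62.VW Pool.Agent.H19.AS
  Pool.Agent.H62.AS Pool.Agent.H34.VW

theorem main1 (k K r : ℕ) (hk : 1 ≤ k) (hK : 1 ≤ K) :
    ∃ D : ℕ, ∀ (L s : ℕ), 0 < L → Nat.Coprime s L → ∀ (χ : ℕ → Fin r),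
      (∀ A : Set (ℕ × ℝ), Scales A →
        (∀ Q : Fin (100 * r * (k + K - 1)) → ℕ, (∀ i, 0 < Q i) → (∀ i, Nat.Coprime (Q i) L) →
          (∀ i j, i ≠ j → Nat.Coprime (Q i) (Q j)) → ∃ i, GoodWS D k K L s χ A (Q i)) ∧
        ∃ Q₀ : ℕ, 0 < Q₀ ∧ ∀ Q : ℕ, 0 < Q → Nat.Coprime Q Q₀ → GoodWS D k K L s χ A Q) ∧
      ∀ (Q : Fin (100 * r * (k + K - 1)) → ℕ), (∀ i, 0 < Q i) → (∀ i, Nat.Coprime (Q i) L) →
        (∀ i j, i ≠ j → Nat.Coprime (Q i) (Q j)) →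
      ∀ e : ℝ, 0 < e → ∃ C d B : ℝ, 1 ≤ C ∧ 0 < d ∧
        ∀ (M : ℕ) (τ : ℝ) (t : Fin (100 * r * (k + K - 1)) → ℝ), ChainU C B D M τ t →
          ∃ i, ∀ w : Fin (k + 1) → ℕ, (∀ j, Nat.Coprime (w j) (Q i)) → ∀ x : Fin k → ℝ, (∀ j, |x j| ≤ 1) →
            ∃ q : Fin r, d * τ ^ D * M ≤ (({n : ℕ | n < M ∧ ShapeW K L s (Q i) w χ q x 1
              (t i * Real.log (Nat.nth Nat.Prime n)) e (Nat.nth Nat.Prime n)}).ncard : ℝ) :=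
  thm14 thmU k K r hk hK

theorem main2 : ∃ D : ℕ, ∀ L s : ℕ, 0 < L → Nat.Coprime s L → ∀ Q : Fin 200 → ℕ,
    (∀ i, 0 < Q i) → (∀ i, Nat.Coprime (Q i) L) → (∀ i j, i ≠ j → Nat.Coprime (Q i) (Q j)) →
    ∀ e : ℝ, 0 < e → ∃ C d B : ℝ, 1 ≤ C ∧ 0 < d ∧
      ∀ (M : ℕ) (τ : ℝ) (t : Fin 200 → ℝ), ChainU C B D M τ t →
        ∃ i, ∀ w : Fin 3 → ℕ, (∀ j, Nat.Coprime (w j) (Q i)) → ∀ u v : ℝ, 0 ≤ u → u ≤ 1 → 0 ≤ v → v ≤ 1 →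
          d * τ ^ D * M ≤ (({n : ℕ | n < M ∧
            |(gap n : ℝ) - u * (t i * Real.log (Nat.nth Nat.Prime n))| < e * (t i * Real.log (Nat.nth Nat.Prime n)) ∧
            |(gap (n + 1) : ℝ) - v * (t i * Real.log (Nat.nth Nat.Prime n))| <
              e * (t i * Real.log (Nat.nth Nat.Prime n)) ∧
            ∀ j : Fin 3, Nat.nth Nat.Prime (n + (j : ℕ)) ≡ s [MOD L] ∧
              Nat.nth Nat.Prime (n + (j : ℕ)) ≡ w j [MOD Q i]}).ncard : ℝ) :=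
  pairU thmU winU

end Pool.Agent.H62.AU
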