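import Pool.Agent.H62.AU.Core

/-!
# [H62 AU Full] One of `T` separated scales is full, without a bound for the quotients

`fullU`: for `e > 0` there are `C, d, B`: whenever `t 0 ≪ t 1 ≪ ... ≪ 1` (each `C` times the one before), `τ ≤ t i`, and
`τ log M` is at least `B` and at least `B log (t i log M) ^ D`, then for some `i` ALL words modulo `Q i` and ALL shapes in
`[-1, 1] ^ k` occur at the scale `t i log p_n` for at least `d τ ^ D M` of the `n < M`.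
-/

set_option autoImplicit false

namespace Pool.Agent.H62.AU

open Filter Finset Pool.Agent.H82.LS Pool.Agent.H62.VK Pool.Agent.H34.RC Pool.Agent.H62.VW Pool.Agent.H19.AS
  Pool.Agent.H62.AS

/-- separated scales `t 0 ≪ t 1 ≪ ... ≪ 1`, all at least `τ`; `τ log M` is at least `B` and a power of the logarithms of
the `t i log M` -/
def ChainU {T : ℕ} (C B : ℝ) (D M : ℕ) (τ : ℝ) (t : Fin T → ℝ) : Prop :=
  B ≤ τ * Real.log M ∧ (∀ i, τ ≤ t i ∧ C * t i ≤ 1 ∧ B * Real.log (t i * Real.log M) ^ D ≤ τ * Real.log M) ∧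
    ∀ i j, i < j → C * t i ≤ t j

theorem core_fin (hT : ThmU) (hWin : WinU) (k K r : ℕ) (hk : 1 ≤ k) (hK : 1 ≤ K) :
    ∃ D : ℕ, ∀ (L s : ℕ), 0 < L → Nat.Coprime s L → ∀ (χ : ℕ → Fin r)
      (Q : Fin (100 * r * (k + K - 1)) → ℕ), (∀ i, 0 < Q i) → (∀ i, Nat.Coprime (Q i) L) →
      (∀ i j, i ≠ j → Nat.Coprime (Q i) (Q j)) →
      ∀ e : ℝ, 0 < e → ∃ C d B : ℝ, 1 ≤ C ∧ 0 < d ∧ ∀ (M : ℕ) (τ : ℝ) (t : Fin (100 * r * (k + K - 1)) → ℝ),
        ChainU C B D M τ t →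
      ∀ W : Fin (100 * r * (k + K - 1)) → Fin (k + 1) → ℕ, (∀ i j, Nat.Coprime (W i j) (Q i)) →
      ∀ x : Fin (100 * r * (k + K - 1)) → Fin k → ℝ, (∀ i j, |x i j| ≤ 1) →
        d * τ ^ D * M ≤ (({n : ℕ | n < M ∧ ∃ (i : Fin (100 * r * (k + K - 1))) (q : Fin r),
          ShapeW K L s (Q i) (W i) χ q (x i) 1 (t i * Real.log (Nat.nth Nat.Prime n)) e
            (Nat.nth Nat.Prime n)}).ncard : ℝ) := by
  classical
  obtain ⟨D, hD⟩ := coreU hT hWin k K r hk hK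
  refine ⟨D, fun L s hL hs χ Q hQ hQL hQQ e he => ?_⟩
  generalize hT : 100 * r * (k + K - 1) = T at *
  obtain ⟨Qf, hQf⟩ : ∃ Qf : ℕ → ℕ, Qf = fun i => if h : i < T then Q ⟨i, h⟩ else 1 := ⟨_, rfl⟩
  have q1 : ∀ i (h : i < T), Qf i = Q ⟨i, h⟩ := fun i h => by rw [hQf]; exact dif_pos h
  have q2 : ∀ i, ¬ i < T → Qf i = 1 := fun i h => by rw [hQf]; exact dif_neg h
  obtain ⟨C, d, B, hC1, hd, hC⟩ := hD L s hL hs χ Qf
    (fun i => by
      by_cases h : i < T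
      · rw [q1 i h]; exact hQ _
      · rw [q2 i h]; exact one_pos)
    (fun i => by
      by_cases h : i < T
      · rw [q1 i h]; exact hQL _
      · rw [q2 i h]; exact Nat.coprime_one_left _)
    (fun i j hij => by
      by_cases h : i < T
      · by_cases h' : j < T
        · rw [q1 i h, q1 j h']
          exact hQQ _ _ (fun h3 => hij (Fin.mk.inj h3))
        · rw [q2 j h']; exact Nat.coprime_one_right _
      · rw [q2 i h]; exact Nat.coprime_one_left _) e he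
  refine ⟨C, d, B, hC1, hd, fun M τ t ht W hW x hx => ?_⟩
  obtain ⟨ht1, ht2, ht3⟩ := ht
  obtain ⟨tf, htf⟩ : ∃ tf : ℕ → ℝ, tf = fun i => if h : i < T then t ⟨i, h⟩ else 0 := ⟨_, rfl⟩
  obtain ⟨Wf, hWf⟩ : ∃ Wf : ℕ → Fin (k + 1) → ℕ, Wf = fun i => if h : i < T then W ⟨i, h⟩ else fun _ => 1 :=
    ⟨_, rfl⟩
  obtain ⟨xf, hxf⟩ : ∃ xf : ℕ → Fin k → ℝ, xf = fun i => if h : i < T then x ⟨i, h⟩ else fun _ => 0 :=
    ⟨_, rfl⟩
  have l1 : ∀ i (h : i < T), tf i = t ⟨i, h⟩ := fun i h => by rw [htf]; exact dif_pos h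
  have w1 : ∀ i (h : i < T), Wf i = W ⟨i, h⟩ := fun i h => by rw [hWf]; exact dif_pos h
  have w2 : ∀ i, ¬ i < T → Wf i = fun _ => 1 := fun i h => by rw [hWf]; exact dif_neg h
  have x1 : ∀ i (h : i < T), xf i = x ⟨i, h⟩ := fun i h => by rw [hxf]; exact dif_pos h
  have x2 : ∀ i, ¬ i < T → xf i = fun _ => 0 := fun i h => by rw [hxf]; exact dif_neg h
  have h := hC M τ tf ht1 (fun i hi => by rw [l1 i hi]; exact ht2 _)
    (fun i hi => by
      rw [l1 i (by omega), l1 (i + 1) hi]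
      exact ht3 _ _ (Fin.mk_lt_mk.2 (Nat.lt_succ_self i)))
    Wf
    (fun i j => by
      by_cases h : i < T
      · rw [q1 i h, w1 i h]; exact hW _ _
      · rw [q2 i h]; exact Nat.coprime_one_right _)
    xf
    (fun i j => by
      by_cases h : i < T
      · rw [x1 i h]; exact hx _ _
      · rw [x2 i h, abs_zero]; exact zero_le_one)
  refine h.trans (Nat.cast_le.2 (Set.ncard_le_ncard (fun n hn => ?_)
    ((Set.finite_lt_nat M).subset fun n hn => hn.1)))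
  obtain ⟨hn, i, hi, q, h3⟩ := hn
  rw [q1 i hi, w1 i hi, x1 i hi, l1 i hi] at h3
  exact ⟨hn, ⟨i, hi⟩, q, h3⟩

theorem fullU (hT : ThmU) (hWin : WinU) (k K r : ℕ) (hk : 1 ≤ k) (hK : 1 ≤ K) :
    ∃ D : ℕ, ∀ (L s : ℕ), 0 < L → Nat.Coprime s L → ∀ (χ : ℕ → Fin r)
      (Q : Fin (100 * r * (k + K - 1)) → ℕ), (∀ i, 0 < Q i) → (∀ i, Nat.Coprime (Q i) L) →
      (∀ i j, i ≠ j → Nat.Coprime (Q i) (Q j)) →
      ∀ e : ℝ, 0 < e → ∃ C d B : ℝ, 1 ≤ C ∧ 0 < d ∧ ∀ (M : ℕ) (τ : ℝ) (t : Fin (100 * r * (k + K - 1)) → ℝ),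
        ChainU C B D M τ t →
          ∃ i, ∀ w : Fin (k + 1) → ℕ, (∀ j, Nat.Coprime (w j) (Q i)) → ∀ x : Fin k → ℝ, (∀ j, |x j| ≤ 1) →
            ∃ q : Fin r, d * τ ^ D * M ≤ (({n : ℕ | n < M ∧ ShapeW K L s (Q i) w χ q x 1
              (t i * Real.log (Nat.nth Nat.Prime n)) e (Nat.nth Nat.Prime n)}).ncard : ℝ) := by
  classical
  obtain ⟨D, hD⟩ := core_fin hT hWin k K r hk hK
  refine ⟨D, fun L s hL hs χ Q hQ hQL hQQ e he => ?_⟩
  have hr : 0 < r := (χ 0).pos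
  have hT0 : 0 < 100 * r * (k + K - 1) := Nat.mul_pos (Nat.mul_pos (by norm_num) hr) (by omega)
  obtain ⟨C, d, B, hC, hd, hU⟩ := hD L s hL hs χ Q hQ hQL hQQ e he
  clear hD
  generalize 100 * r * (k + K - 1) = T at *
  have hTr : (0 : ℝ) < T * r := by
    have h1 : (0 : ℝ) < T := by exact_mod_cast hT0
    have h2 : (0 : ℝ) < r := by exact_mod_cast hr
    positivity
  refine ⟨C, d / (T * r), B, hC, by positivity, fun M τ t ht => ?_⟩
  by_contra hcon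
  push Not at hcon
  choose w hw x hx hcnt using hcon
  have h1 := hU M τ t ht w hw x hx
  have h7 := ncard_ex_le M (fun (b : Fin T × Fin r) n =>
    ShapeW K L s (Q b.1) (w b.1) χ b.2 (x b.1) 1 (t b.1 * Real.log (Nat.nth Nat.Prime n)) e
        (Nat.nth Nat.Prime n))
  have h2 : (({n : ℕ | n < M ∧ ∃ (i : Fin T) (q : Fin r),
      ShapeW K L s (Q i) (w i) χ q (x i) 1 (t i * Real.log (Nat.nth Nat.Prime n)) e
        (Nat.nth Nat.Prime n)}).ncard : ℝ) ≤ (({n : ℕ | n < M ∧ ∃ b : Fin T × Fin r,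
      ShapeW K L s (Q b.1) (w b.1) χ b.2 (x b.1) 1 (t b.1 * Real.log (Nat.nth Nat.Prime n)) e
        (Nat.nth Nat.Prime n)}).ncard : ℝ) := by
    refine Nat.cast_le.2 (Set.ncard_le_ncard ?_ ((Set.finite_lt_nat M).subset fun n hn => hn.1))
    rintro n ⟨hn, i, q, h⟩
    exact ⟨hn, (i, q), h⟩
  have hnon : (univ : Finset (Fin T × Fin r)).Nonempty := ⟨(⟨0, hT0⟩, χ 0), mem_univ _⟩
  have hlt2 : ∑ b : Fin T × Fin r, (({n : ℕ | n < M ∧
      ShapeW K L s (Q b.1) (w b.1) χ b.2 (x b.1) 1 (t b.1 * Real.log (Nat.nth Nat.Prime n)) e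
        (Nat.nth Nat.Prime n)}).ncard : ℝ) < ∑ _b : Fin T × Fin r, d / (T * r) * τ ^ D * M :=
    sum_lt_sum_of_nonempty hnon fun b _ => hcnt b.1 b.2
  rw [sum_const, card_univ, Fintype.card_prod, Fintype.card_fin, Fintype.card_fin, nsmul_eq_mul] at hlt2
  have h5 : ((T * r : ℕ) : ℝ) * (d / (T * r) * τ ^ D * M) = d * τ ^ D * M := by
    push_cast
    field_simp
  rw [h5] at hlt2
  linarith

end Pool.Agent.H62.AU
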