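import Pool.Agent.H62.AU.Full
import Pool.Agent.H62.AS.Pair

/-!
# [H62 AU Pair] Pairs of consecutive gaps at one of `200` separated scales, without a bound for the quotients
-/

set_option autoImplicit false

namespace Pool.Agent.H62.AU

open Filter Finset Pool.Agent.H82.LS Pool.Agent.H62.VK Pool.Agent.H34.RC Pool.Agent.H62.VW Pool.Agent.H19.AS
  Pool.Agent.H82.AS Pool.Agent.H34.VW Pool.Agent.H62.AS

theorem pairU (hT : ThmU) (hWin : WinU) : ∃ D : ℕ, ∀ L s : ℕ, 0 < L → Nat.Coprime s L → ∀ Q : Fin 200 → ℕ,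
    (∀ i, 0 < Q i) → (∀ i, Nat.Coprime (Q i) L) → (∀ i j, i ≠ j → Nat.Coprime (Q i) (Q j)) →
    ∀ e : ℝ, 0 < e → ∃ C d B : ℝ, 1 ≤ C ∧ 0 < d ∧
      ∀ (M : ℕ) (τ : ℝ) (t : Fin 200 → ℝ), ChainU C B D M τ t →
        ∃ i, ∀ w : Fin 3 → ℕ, (∀ j, Nat.Coprime (w j) (Q i)) → ∀ u v : ℝ, 0 ≤ u → u ≤ 1 → 0 ≤ v → v ≤ 1 →
          d * τ ^ D * M ≤ (({n : ℕ | n < M ∧
            |(gap n : ℝ) - u * (t i * Real.log (Nat.nth Nat.Prime n))| < e * (t i * Real.log (Nat.nth Nat.Prime n)) ∧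
            |(gap (n + 1) : ℝ) - v * (t i * Real.log (Nat.nth Nat.Prime n))| <
              e * (t i * Real.log (Nat.nth Nat.Prime n)) ∧
            ∀ j : Fin 3, Nat.nth Nat.Prime (n + (j : ℕ)) ≡ s [MOD L] ∧
              Nat.nth Nat.Prime (n + (j : ℕ)) ≡ w j [MOD Q i]}).ncard : ℝ) := by
  obtain ⟨D, hD⟩ := fullU hT hWin 2 1 1 one_le_two le_rfl
  refine ⟨D, fun L s hL hs Q hQ hQL hQQ e he => ?_⟩
  obtain ⟨δ, hδ, hδ1, hpt⟩ := pair_point he
  obtain ⟨i0, hi0⟩ := eventually_atTop.1 hpt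
  obtain ⟨C, d, B, hC, hd, h⟩ := hD L s hL hs (fun _ => (0 : Fin 1)) Q hQ hQL hQQ (δ / 4) (by positivity)
  obtain ⟨B1, hB1, hB2⟩ := large_scale D (2 * i0 / d)
  obtain ⟨B', hB'⟩ : ∃ B', B' = max (|B| * 2 ^ D) (max 2 B1) := ⟨_, rfl⟩
  have b1 : |B| * 2 ^ D ≤ B' := hB' ▸ le_max_left _ _
  have b2 : 2 ≤ B' := hB' ▸ (le_max_left _ _).trans (le_max_right _ _)
  have b3 : B1 ≤ B' := hB' ▸ (le_max_right _ _).trans (le_max_right _ _)
  have h2D : (1 : ℝ) ≤ 2 ^ D := one_le_pow₀ (by norm_num)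
  have b4 : B ≤ B' := by
    have h1 := le_abs_self B
    have h2 := abs_nonneg B
    nlinarith
  refine ⟨2 * C, d / 2, B', by linarith, by positivity, fun M τ t ht => ?_⟩
  obtain ⟨ht0, ht1, ht2⟩ := ht
  have hτ : 0 < τ := pos_of_scale two_pos (b2.trans ht0)
  have htpos : ∀ i, 0 < t i := fun i => hτ.trans_le (ht1 i).1
  have hlM : 0 ≤ Real.log (M : ℝ) := Real.log_natCast_nonneg M
  have hch : ChainU C B D M (2 * τ) (fun i => 2 * t i) := by
    refine ⟨?_, fun i => ?_, fun i j hij => ?_⟩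
    · have h4 : 0 ≤ τ * Real.log M := mul_nonneg hτ.le hlM
      linarith
    · obtain ⟨h1, h2, h3⟩ := ht1 i
      refine ⟨by show 2 * τ ≤ 2 * t i; linarith, by show C * (2 * t i) ≤ 1; linarith, ?_⟩
      obtain ⟨z, hz⟩ : ∃ z, z = t i * Real.log M := ⟨_, rfl⟩
      have e1 : 2 * t i * Real.log M = 2 * z := by rw [hz]; ring
      show B * Real.log (2 * t i * Real.log M) ^ D ≤ 2 * τ * Real.log M
      rw [e1]
      rw [← hz] at h3
      have hz2 : 2 ≤ z := by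
        rw [hz]
        exact (b2.trans ht0).trans (mul_le_mul_of_nonneg_right h1 hlM)
      have hlz : 0 ≤ Real.log z := Real.log_nonneg (by linarith)
      have hl2 : Real.log (2 * z) ≤ 2 * Real.log z := by
        have h5 : 2 * z ≤ z ^ 2 := by nlinarith
        have h6 := Real.log_le_log (by linarith) h5
        rw [Real.log_pow] at h6
        exact_mod_cast h6
      have hl0 : 0 ≤ Real.log (2 * z) := Real.log_nonneg (by linarith)
      have h7 : Real.log (2 * z) ^ D ≤ (2 * Real.log z) ^ D := pow_le_pow_left₀ hl0 hl2 D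
      rw [mul_pow] at h7
      have h8 : B * Real.log (2 * z) ^ D ≤ |B| * Real.log (2 * z) ^ D :=
        mul_le_mul_of_nonneg_right (le_abs_self B) (pow_nonneg hl0 D)
      have h9 : |B| * Real.log (2 * z) ^ D ≤ |B| * (2 ^ D * Real.log z ^ D) :=
        mul_le_mul_of_nonneg_left h7 (abs_nonneg B)
      have h10 : |B| * 2 ^ D * Real.log z ^ D ≤ B' * Real.log z ^ D :=
        mul_le_mul_of_nonneg_right b1 (pow_nonneg hlz D)
      have h4 : 0 ≤ τ * Real.log M := mul_nonneg hτ.le hlM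
      linarith
    · have h1 := ht2 i j hij
      have h2 := htpos j
      show C * (2 * t i) ≤ 2 * t j
      linarith
  obtain ⟨i, hi⟩ := h M (2 * τ) (fun i => 2 * t i) hch
  refine ⟨i, fun w hw u v hu0 hu1 hv0 hv1 => ?_⟩
  have hu2 : 0 < max u δ := lt_max_of_lt_right hδ
  have hv2 : 0 < max v δ := lt_max_of_lt_right hδ
  have hu3 : max u δ ≤ 1 := max_le hu1 (by linarith)
  have hv3 : max v δ ≤ 1 := max_le hv1 (by linarith)
  obtain ⟨q, hq⟩ := hi ![w 1, w 0, w 2] (by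
    intro j
    fin_cases j
    · exact hw 1
    · exact hw 0
    · exact hw 2) (fun j => 1 / 2 * (![-(max u δ), max v δ] : Fin 2 → ℝ) j) (by
    intro j
    rw [abs_mul, abs_of_pos (by norm_num : (0 : ℝ) < 1 / 2)]
    fin_cases j
    · show 1 / 2 * |(-(max u δ) : ℝ)| ≤ 1
      rw [abs_neg, abs_of_pos hu2]
      linarith
    · show 1 / 2 * |(max v δ : ℝ)| ≤ 1
      rw [abs_of_pos hv2]
      linarith)
  have hτ1 : τ ≤ 1 := by
    have h1 := (ht1 i).2.1
    have h2 := htpos i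
    have h3 := (ht1 i).1
    nlinarith
  obtain ⟨-, hbig⟩ := hB2 M τ hτ1 (b3.trans ht0)
  rw [div_le_iff₀ hd] at hbig
  have h5 := shift_card (P := fun n => ShapeW 1 L s (Q i) ![w 1, w 0, w 2] (fun _ => (0 : Fin 1)) q
      (fun j => 1 / 2 * (![-(max u δ), max v δ] : Fin 2 → ℝ) j) 1
      (2 * t i * Real.log (Nat.nth Nat.Prime n)) (δ / 4) (Nat.nth Nat.Prime n))
    (P' := fun n => |(gap n : ℝ) - u * (t i * Real.log (Nat.nth Nat.Prime n))| <
        e * (t i * Real.log (Nat.nth Nat.Prime n)) ∧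
      |(gap (n + 1) : ℝ) - v * (t i * Real.log (Nat.nth Nat.Prime n))| <
        e * (t i * Real.log (Nat.nth Nat.Prime n)) ∧
      ∀ j : Fin 3, Nat.nth Nat.Prime (n + (j : ℕ)) ≡ s [MOD L] ∧
        Nat.nth Nat.Prime (n + (j : ℕ)) ≡ w j [MOD Q i]) (i0 := i0) (M := M) (by
      intro n hn hP
      refine hi0 n hn (t i) (htpos i) L s (Q i) w (fun _ => (0 : Fin 1)) q u v hu0 hu1 hv0 hv1 ?_
      have h6 : ShapeW 1 L s (Q i) ![w 1, w 0, w 2] (fun _ => (0 : Fin 1)) q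
          (![-(max u δ), max v δ] : Fin 2 → ℝ) 2 (1 / 2 * (2 * t i * Real.log (Nat.nth Nat.Prime n))) (δ / 2)
          (Nat.nth Nat.Prime n) := by
        refine shape_rescale (v := 1 / 2) ?_
        rw [show (1 / 2 : ℝ) * 2 = 1 by norm_num, show 1 / 2 * (δ / 2) = δ / 4 by ring]
        exact hP
      rw [show 1 / 2 * (2 * t i * Real.log (Nat.nth Nat.Prime n)) = t i * Real.log (Nat.nth Nat.Prime n) by ring]
        at h6
      exact h6)
  have hM0 : (0 : ℝ) ≤ M := Nat.cast_nonneg M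
  have h7 : d * τ ^ D * M ≤ d * (2 * τ) ^ D * M := by
    refine mul_le_mul_of_nonneg_right (mul_le_mul_of_nonneg_left ?_ hd.le) hM0
    exact pow_le_pow_left₀ hτ.le (by linarith) D
  have h8 : d * (2 * τ) ^ D * (M : ℝ) ≤ i0 + _ := hq.trans h5
  linarith

end Pool.Agent.H62.AU
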